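import Pool.Agent.helper28.BQ.SpecC
import Pool.Agent.helper76.BQ.MSpec

/-!
# BQ, module EXC: the exchange theorem for sign vectors from the main nonvanishing theorem
-/

open scoped BigOperators ComplexConjugate Matrix
open MeasureTheory NumberField

namespace BQ

theorem EXC (hW : WS_stmt) (hE : EXCH_stmt) : EXC_stmt := by
  intro F _ _ hreal hdeg kap v0 hkI hkP ea eb ec ed hs ha0 hb0 hc0 hd0
  classical
  -- the element `d`
  obtain ⟨d, hdI, hd⟩ := hW F hreal (fun v => if v = v0 then (1 : ℝ) else -1)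
    (fun v => by by_cases h : v = v0 <;> simp [h])
  have hsgn : ∀ (e : (F →+* ℝ) → ℤ), (∀ v, e v = 1 ∨ e v = -1) → ∀ v, (e v : ℝ) ≠ 0 := by
    intro e he v
    rcases he v with h | h <;> rw [h] <;> norm_num
  obtain ⟨da, _, hda⟩ := hW F hreal (fun v => (ea v : ℝ)) (hsgn ea fun v => (hs v).1)
  obtain ⟨db, _, hdb⟩ := hW F hreal (fun v => (eb v : ℝ)) (hsgn eb fun v => (hs v).2.1)
  have hH : Hyp F kap d v0 := by
    refine ⟨hreal, hdeg, hkI, hdI, hkP, ?_, ?_⟩
    · have := hd v0
      simpa using this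
    · intro v hv
      have := hd v
      simp only [if_neg hv] at this
      linarith
  have ha1 : 0 < v0 da := by
    have := hda v0
    simpa [ha0] using this
  have hb1 : 0 < v0 db := by
    have := hdb v0
    simpa [hb0] using this
  obtain ⟨dc, dd, h1, h2, pa, pb, pc, pd, G, spa, spb, spc, spd, hG, hGi, hfree, hcoc, hD, hinv,
    hca, hcb, hcc, hcd, hint⟩ := hE F kap d v0 hH da db ha1 hb1 {v | ea v ≠ ec v}
      (by simp [ha0, hc0])
  refine ⟨d, da, db, dc, dd, hH, ?_, ?_⟩
  · intro v
    refine ⟨hda v, hdb v, ?_, ?_⟩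
    · by_cases hv : ea v = ec v
      · have h3 := (h1 v (by simp [hv])).1
        have h4 := hda v
        have h5 : 0 < ((ea v : ℝ) * v da) * (v da * v dc) := mul_pos h4 h3
        have h6 : ((ea v : ℝ) * v da) * (v da * v dc) = ((ec v : ℝ) * v dc) * (v da) ^ 2 := by
          rw [hv]; ring
        rw [h6] at h5
        exact pos_of_mul_pos_left h5 (sq_nonneg _)
      · have h3 := (h2 v hv).1
        have h4 := hdb v
        have hbc : eb v = ec v := by
          obtain ⟨a, b, c, d', e⟩ := hs v
          rcases a with a | a <;> rcases b with b | b <;> rcases c with c | c <;>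
            rcases d' with d' | d' <;> simp [a, b, c, d'] at hv e ⊢
        have h5 : 0 < ((eb v : ℝ) * v db) * (v db * v dc) := mul_pos h4 h3
        have h6 : ((eb v : ℝ) * v db) * (v db * v dc) = ((ec v : ℝ) * v dc) * (v db) ^ 2 := by
          rw [hbc]; ring
        rw [h6] at h5
        exact pos_of_mul_pos_left h5 (sq_nonneg _)
    · by_cases hv : ea v = ec v
      · have h3 := (h1 v (by simp [hv])).2
        have h4 := hdb v
        have hbd : eb v = ed v := by
          have := (hs v).2.2.2.2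
          omega
        have h5 : 0 < ((eb v : ℝ) * v db) * (v db * v dd) := mul_pos h4 h3
        have h6 : ((eb v : ℝ) * v db) * (v db * v dd) = ((ed v : ℝ) * v dd) * (v db) ^ 2 := by
          rw [hbd]; ring
        rw [h6] at h5
        exact pos_of_mul_pos_left h5 (sq_nonneg _)
      · have h3 := (h2 v hv).2
        have h4 := hda v
        have had : ea v = ed v := by
          obtain ⟨a, b, c, d', e⟩ := hs v
          rcases a with a | a <;> rcases b with b | b <;> rcases c with c | c <;>
            rcases d' with d' | d' <;> simp [a, b, c, d'] at hv e ⊢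
        have h5 : 0 < ((ea v : ℝ) * v da) * (v da * v dd) := mul_pos h4 h3
        have h6 : ((ea v : ℝ) * v da) * (v da * v dd) = ((ed v : ℝ) * v dd) * (v da) ^ 2 := by
          rw [had]; ring
        rw [h6] at h5
        exact pos_of_mul_pos_left h5 (sq_nonneg _)
  · have hv0 : v0 ∉ {v | ea v ≠ ec v} := by simp [ha0, hc0]
    have hc1 : 0 < v0 dc := pos_of_mul_pos_right (h1 v0 hv0).1 ha1.le
    have hd1 : 0 < v0 dd := pos_of_mul_pos_right (h1 v0 hv0).2 hb1.le
    exact ⟨⟨ha1, hb1, hc1, hd1⟩, G, pa, pb, pc, pd, hG, hGi, hfree, hcoc, ⟨spa, spb, spc, spd⟩,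
      ⟨hca, fun g hg => (hinv g hg).1⟩, ⟨hcb, fun g hg => (hinv g hg).2.1⟩,
      ⟨hcc, fun g hg => (hinv g hg).2.2.1⟩, ⟨hcd, fun g hg => (hinv g hg).2.2.2⟩, hD, hint⟩

end BQ
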